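import Pool.Agent.Lib.MP_daa227_pr.Multi
import Pool.Agent.Lib.MP_daa227_pr.Positive
import Pool.Agent.Lib.MP_daa227_pr.Crit
import Pool.Agent.Lib.MP_daa227_pr.Mark
import Pool.Agent.Lib.MP_daa227_pr.ConcLim
import Pool.Agent.Lib.MP_daa227_pr.Conf1
import Pool.Agent.Lib.MP_daa227_pr.Conf2

/-!
# MP_daa227_pr: for slowly decaying potentials the quenched transition has order exactly one
-/

open MeasureTheory ProbabilityTheory Set Filter
open scoped ENNReal Topology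

namespace Pool.Agent.Results.MP_daa227_pr.FirstOrder

open _root_.MP_daa227_pr

noncomputable section

/-- Transition probabilities of an irreducible nearest-neighbour chain on `ℤ` (holding allowed). -/
structure IsKernel (p : ℤ → ℤ → ℝ) : Prop where
  nonneg : ∀ x y, 0 ≤ p x y
  nearest : ∀ x y, 1 < |y - x| → p x y = 0
  total : ∀ x, p x (x - 1) + p x x + p x (x + 1) = 1
  irreducible : ∀ x y, Relation.ReflTransGen (fun a b => 0 < p a b) x y

/-- `S` is the Markov chain with transition probabilities `p` started at `0`, on the probability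
space `(Ω, P)`. -/
def IsMarkovChain {Ω : Type*} [MeasurableSpace Ω] (P : Measure Ω) (p : ℤ → ℤ → ℝ)
    (S : ℕ → Ω → ℤ) : Prop :=
  (∀ n, Measurable (S n)) ∧ ∀ (n : ℕ) (x : ℕ → ℤ), x 0 = 0 →
    P {w | ∀ i ≤ n, S i w = x i} = ENNReal.ofReal (∏ i ∈ Finset.range n, p (x i) (x (i + 1)))

/-- `P(τ₁ = n)`, where `τ₁` is the first return time to `0`. -/
def retProb {Ω : Type*} [MeasurableSpace Ω] (P : Measure Ω) (S : ℕ → Ω → ℤ) (n : ℕ) : ℝ :=
  (P {w | S n w = 0 ∧ ∀ i, 0 < i → i < n → S i w ≠ 0}).toReal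

/-- The partition function `E[exp (∑_{n=1}^N (β ω_n - h) φ(S_n))]` (the charge `ω_n` of the text is
`ω (n - 1)` here). -/
def Zpin {Ω : Type*} [MeasurableSpace Ω] (P : Measure Ω) (S : ℕ → Ω → ℤ) (φ : ℤ → ℝ) (β h : ℝ)
    (N : ℕ) (ω : ℕ → ℝ) : ℝ :=
  ∫ w, Real.exp (∑ n ∈ Finset.range N, (β * ω n - h) * φ (S (n + 1) w)) ∂P

/-- `φ(x) ≥ c (1 + |x|)^(-θ)` for some `c > 0`. -/
def SlowDecay (φ : ℤ → ℝ) (θ : ℝ) : Prop :=
  ∃ c : ℝ, 0 < c ∧ ∀ x : ℤ, c * (1 + |(x : ℝ)|) ^ (-θ) ≤ φ x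

lemma cross_up {p : ℤ → ℤ → ℝ} (hp : IsKernel p) {x y a : ℤ}
    (h : Relation.ReflTransGen (fun a b => 0 < p a b) x y) (hx : x ≤ a) : a < y → 0 < p a (a + 1) := by
  induction h with
  | refl => intro hy; omega
  | @tail b c _ hbc ih =>
    intro hc
    by_cases hb : a < b
    · exact ih hb
    · push Not at hb
      have h1 : ¬ 1 < |c - b| := fun h1 => by rw [hp.nearest b c h1] at hbc; exact lt_irrefl _ hbc
      push Not at h1
      rw [abs_le] at h1
      have h2 : b = a := by omega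
      have h3 : c = a + 1 := by omega
      rw [h2, h3] at hbc
      exact hbc

lemma cross_down {p : ℤ → ℤ → ℝ} (hp : IsKernel p) {x y a : ℤ}
    (h : Relation.ReflTransGen (fun a b => 0 < p a b) x y) (hx : a ≤ x) : y < a → 0 < p a (a - 1) := by
  induction h with
  | refl => intro hy; omega
  | @tail b c _ hbc ih =>
    intro hc
    by_cases hb : b < a
    · exact ih hb
    · push Not at hb
      have h1 : ¬ 1 < |c - b| := fun h1 => by rw [hp.nearest b c h1] at hbc; exact lt_irrefl _ hbc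
      push Not at h1
      rw [abs_le] at h1
      have h2 : b = a := by omega
      have h3 : c = a - 1 := by omega
      rw [h2, h3] at hbc
      exact hbc

/-- The bundled chain. -/
def IsKernel.chain {p : ℤ → ℤ → ℝ} (hp : IsKernel p) : Chain where
  p := p
  nonneg := hp.nonneg
  near := by
    intro x y hy
    apply hp.nearest
    rw [Finset.mem_Icc] at hy
    rw [lt_abs]
    omega
  sum_one := by
    intro x
    rw [Occ.sum_Icc]
    exact hp.total x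
  up := fun x => cross_up hp (hp.irreducible x (x + 1)) le_rfl (by omega)
  down := fun x => cross_down hp (hp.irreducible x (x - 1)) le_rfl (by omega)

lemma SlowDecay.pos {φ : ℤ → ℝ} {θ : ℝ} (h : SlowDecay φ θ) (x : ℤ) : 0 < φ x := by
  obtain ⟨c, hc, h⟩ := h
  exact lt_of_lt_of_le (by positivity) (h x)

lemma SlowDecay.max_zero {φ : ℤ → ℝ} {θ : ℝ} (h : SlowDecay φ θ) : SlowDecay φ (max θ 0) := by
  obtain ⟨c, hc, h⟩ := h
  refine ⟨c, hc, fun x => le_trans ?_ (h x)⟩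
  apply mul_le_mul_of_nonneg_left _ hc.le
  apply Real.rpow_le_rpow_of_exponent_le
  · have := abs_nonneg (x : ℝ); linarith
  · have := le_max_left θ 0; linarith

lemma bounded_of_lim {φ : ℤ → ℝ} (h : Tendsto φ cofinite (𝓝 0)) : ∃ Φ : ℝ, ∀ x, φ x ≤ Φ := by
  obtain ⟨R, hR⟩ := exists_box h one_pos
  obtain ⟨Φ, hΦ⟩ := ((Finset.Icc (-(R : ℤ)) R).image φ).exists_le
  refine ⟨max 1 Φ, fun x => ?_⟩
  by_cases hx : x ∈ Finset.Icc (-(R : ℤ)) R
  · exact (hΦ _ (Finset.mem_image_of_mem _ hx)).trans (le_max_right _ _)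
  · exact (hR x hx).le.trans (le_max_left _ _)

lemma polyReturn {C : Chain} {α : ℝ}
    (h : Tendsto (fun n : ℕ => Real.log (K0 C (2 * n) 0) / Real.log (2 * n)) atTop (𝓝 (-(1 + α)))) :
    Model.PolyReturn C := by
  have h1 : Tendsto (fun k : ℕ => 2 ^ k) atTop atTop := tendsto_pow_atTop_atTop_of_one_lt (by norm_num)
  have h2 := (h.comp h1).abs
  obtain ⟨V, hV⟩ := h2.bddAbove_range
  have hlog2 : 0 < Real.log 2 := Real.log_pos (by norm_num)
  refine ⟨max (V * Real.log 2) 1, by positivity, fun k hk => ?_⟩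
  obtain ⟨j, rfl⟩ : ∃ j, k = j + 1 := ⟨k - 1, by omega⟩
  have h3 : |Real.log (K0 C (2 * 2 ^ j) 0) / Real.log (2 * ((2 ^ j : ℕ) : ℝ))| ≤ V := hV ⟨j, rfl⟩
  have h4 : (2 : ℝ) * ((2 ^ j : ℕ) : ℝ) = 2 ^ (j + 1) := by push_cast; ring
  have h5 : 2 * 2 ^ j = 2 ^ (j + 1) := by ring
  rw [h4, h5, Real.log_pow, abs_div] at h3
  have hj : (0 : ℝ) < ((j + 1 : ℕ) : ℝ) := by positivity
  have h6 : |((j + 1 : ℕ) : ℝ) * Real.log 2| = ((j + 1 : ℕ) : ℝ) * Real.log 2 := abs_of_pos (by positivity)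
  rw [h6, div_le_iff₀ (by positivity)] at h3
  calc |Real.log (K0 C (2 ^ (j + 1)) 0)| ≤ V * (((j + 1 : ℕ) : ℝ) * Real.log 2) := h3
    _ = (V * Real.log 2) * ((j + 1 : ℕ) : ℝ) := by ring
    _ ≤ _ := mul_le_mul_of_nonneg_right (le_max_left _ _) hj.le

/-- **Slowly decaying potentials: the quenched transition has order exactly one.** -/
theorem result {Ω : Type*} [MeasurableSpace Ω] (P : Measure Ω) [IsProbabilityMeasure P]
    (p : ℤ → ℤ → ℝ) (hp : IsKernel p) (S : ℕ → Ω → ℤ) (hS : IsMarkovChain P p S)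
    (α : ℝ) (htail : Tendsto (fun n : ℕ => Real.log (retProb P S (2 * n)) / Real.log (2 * n)) atTop
      (𝓝 (-(1 + α))))
    (μ : Measure ℝ) [IsProbabilityMeasure μ] (hexp : ∀ t : ℝ, Integrable (fun x => Real.exp (t * x)) μ)
    (hmean : ∫ x, x ∂μ = 0) (hvar : ∫ x, x ^ 2 ∂μ = 1)
    (φ : ℤ → ℝ) (hφ1 : Tendsto φ atTop (𝓝 0)) (hφ2 : Tendsto φ atBot (𝓝 0))
    (hslow : (∃ θ : ℝ, θ < 1 / 2 ∧ SlowDecay φ θ) ∨
      (∃ θ : ℝ, θ < 2 / 3 ∧ SlowDecay φ θ ∧
        ∃ κ : ℝ, ∀ x : ℤ, |p x (x + 1) - p x (x - 1)| ≤ κ / (1 + |(x : ℝ)|)) ∨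
      ((∀ x, 0 < φ x) ∧ ∃ r : ℝ, 1 / 2 < r ∧ ∀ η : ℝ, 0 < η → ∃ A a : ℝ, 0 < a ∧ ∀ n : ℕ,
        ∫ w, Real.exp (-η * ∑ i ∈ Finset.range n, φ (S (i + 1) w)) ∂P ≤
          A * Real.exp (-a * (n : ℝ) ^ r)))
    (β : ℝ) (hβ : 0 < β) :
    ∃ F : ℝ → ℝ,
      (∀ h, ∀ᵐ ω ∂(Measure.infinitePi (fun _ : ℕ => μ)),
        Tendsto (fun N : ℕ => Real.log (Zpin P S φ β h N ω) / N) atTop (𝓝 (F h))) ∧
      (∀ h, Tendsto (fun N : ℕ => ∫ ω, |Real.log (Zpin P S φ β h N ω) / N - F h|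
        ∂(Measure.infinitePi (fun _ : ℕ => μ))) atTop (𝓝 0)) ∧
      (∀ h, 0 ≤ F h) ∧
      ∃ hc : ℝ, 0 < hc ∧ (∀ h, 0 < F h ↔ h < hc) ∧
        (∃ c₁ : ℝ, 0 < c₁ ∧ ∃ c₂ : ℝ, 0 < c₂ ∧ ∀ δ : ℝ, 0 < δ →
          c₁ * δ ≤ F (hc - δ) ∧ F (hc - δ) ≤ c₂ * δ) ∧
        (∀ q : ℝ, 0 < q → ((∃ C : ℝ, ∃ δ₀ : ℝ, 0 < δ₀ ∧ ∀ δ : ℝ, 0 < δ → δ < δ₀ →
          F (hc - δ) ≤ C * δ ^ q) ↔ q ≤ 1)) := by
  set C := hp.chain with hC
  have hSC : IsChain P C.p S := hS
  -- positivity of the potential and confinement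
  have hZdet : ∀ (η : ℝ) (n : ℕ), ∫ w, Real.exp (-η * ∑ i ∈ Finset.range n, φ (S (i + 1) w)) ∂P =
      Zf C (Wdet η φ) n (fun _ => 0) 0 := by
    intro η n
    have h1 := Zf_eq_integral P C S hSC φ 0 η n (fun _ => 0)
    have h2 : (fun (a : ℝ) (z : ℤ) => Real.exp ((0 * a - η) * φ z)) = Wdet η φ := by
      funext a z
      simp [Wdet]
    rw [h2] at h1
    rw [← h1]
    congr 1
    funext w
    congr 1
    rw [Finset.mul_sum]
    apply Finset.sum_congr rfl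
    intro i _
    ring
  have hφpos : ∀ x, 0 < φ x := by
    rcases hslow with ⟨θ, _, h⟩ | ⟨θ, _, h, _⟩ | ⟨h, _⟩
    · exact h.pos
    · exact h.pos
    · exact h
  obtain ⟨r, hr, hconf⟩ : ∃ r : ℝ, 1 / 2 < r ∧ Confine C φ r := by
    rcases hslow with ⟨θ, hθ, h⟩ | ⟨θ, hθ, h, κ, hκ⟩ | ⟨_, r, hr, h⟩
    · obtain ⟨c, hc, h'⟩ := h.max_zero
      refine ⟨1 - max θ 0, ?_, confine_general C hc (le_max_right _ _) ?_ h'⟩
      · have : max θ 0 < 1 / 2 := max_lt hθ (by norm_num)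
        linarith
      · exact max_lt (by linarith) (by norm_num)
    · obtain ⟨c, hc, h'⟩ := h.max_zero
      have hm0 : 0 ≤ max θ 0 := le_max_right _ _
      have hm : max θ 0 < 2 / 3 := max_lt hθ (by norm_num)
      refine ⟨(2 - max θ 0) / (2 + max θ 0), ?_, confine_bessel C hc hm0 (by linarith) h' hκ⟩
      rw [div_lt_div_iff₀ (by norm_num) (by linarith)]
      linarith
    · refine ⟨r, hr, confine_of_zero C (by linarith) fun η hη => ?_⟩
      obtain ⟨A, a, ha, hA⟩ := h η hη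
      refine ⟨A, a, ha, fun n => ?_⟩
      rw [← hZdet]
      exact hA n
  have hlim : Tendsto φ cofinite (𝓝 0) := by
    rw [Int.cofinite_eq]
    exact hφ2.sup hφ1
  obtain ⟨Φ, hΦ⟩ := bounded_of_lim hlim
  -- the model
  let M : Model :=
    { C := C, μ := μ, prob := inferInstance, exp_mom := hexp, mean := hmean, var := hvar, φ := φ,
      Φ := Φ, φ_pos := hφpos, φ_le := hΦ, φ_lim := hlim, β := β, β_pos := hβ }
  have hZ : ∀ h N ω, Zpin P S φ β h N ω = M.Zl h N ω := fun h N ω =>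
    Zf_eq_integral P C S hSC φ β h N ω
  have hpoly : Model.PolyReturn M.C := by
    apply polyReturn (α := α)
    refine htail.congr' ?_
    filter_upwards [eventually_ge_atTop 1] with n hn
    unfold retProb
    rw [K0_eq_prob P C S hSC (2 * n) (by omega)]
  have hFr0 := M.Fr_nonneg hpoly
  obtain ⟨hc, hc0, hcrit⟩ := M.exists_hc (M.Fr_zero_pos hpoly hr hconf)
  obtain ⟨c₁, hc₁, hlow⟩ := M.Fr_lower hr hconf hc0 hcrit
  have hFrc : M.Fr hc ≤ 0 := by
    by_contra hcon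
    push Not at hcon
    exact lt_irrefl _ ((hcrit hc).1 hcon)
  have hupp : ∀ δ : ℝ, 0 < δ → M.Fr (hc - δ) ≤ M.Φ * δ := by
    intro δ hδ
    have h1 := M.Fr_lip (h := hc - δ) (h' := hc) (by linarith)
    have h2 : (hc - (hc - δ)) * M.Φ = M.Φ * δ := by ring
    linarith
  -- law of large numbers
  have hmeas : ∀ h N, Measurable (fun ω => Real.log (M.Zl h N ω)) := fun h N => (M.good_Zl h N).meas.log
  have hlip : ∀ h N, LipOn N M.κ (fun ω => Real.log (M.Zl h N ω)) := fun h N =>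
    (M.good_Zl h N).log_lip (M.Zl_pos h N)
  have hmeanlim : ∀ h, Tendsto (fun N : ℕ => M.ΨF h N / N) atTop (𝓝 (M.Fr h)) := fun h =>
    M.mean_limit (hFr0 h)
  refine ⟨M.Fr, fun h => ?_, fun h => ?_, hFr0, hc, hc0, hcrit, ⟨c₁, hc₁, M.Φ, M.Φ_pos, fun δ hδ =>
    ⟨hlow δ hδ, hupp δ hδ⟩⟩, fun q hq => ⟨fun hC => ?_, fun hq1 => ?_⟩⟩
  · have h1 := conc_ae (μ := M.μ) M.exp_mom (κ := M.κ) (fun N ω => Real.log (M.Zl h N ω)) (hmeas h) (hlip h)
    have h1' : ∀ᵐ ω ∂(Measure.infinitePi (fun _ : ℕ => μ)), Tendsto (fun N : ℕ =>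
      (Real.log (M.Zl h N ω) - ∫ ω', Real.log (M.Zl h N ω') ∂seqLaw M.μ) / N) atTop (𝓝 0) := h1
    filter_upwards [h1'] with ω hω
    have h2 := hω.add (hmeanlim h)
    rw [zero_add] at h2
    refine h2.congr (fun N => ?_)
    rw [hZ, ← add_div]
    congr 1
    unfold Model.ΨF
    ring
  · have h1 := conc_L1 (μ := M.μ) M.exp_mom (κ := M.κ) (fun N ω => Real.log (M.Zl h N ω)) (hmeas h) (hlip h)
    have h2 : Tendsto (fun N : ℕ => |M.ΨF h N / N - M.Fr h|) atTop (𝓝 0) := by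
      have := ((hmeanlim h).sub_const (M.Fr h)).abs
      simpa using this
    have h3 := h1.add h2
    rw [add_zero] at h3
    refine squeeze_zero (fun N => integral_nonneg fun _ => abs_nonneg _) (fun N => ?_) h3
    have hint : Integrable (fun ω => |Real.log (M.Zl h N ω) - M.ΨF h N|) (seqLaw M.μ) :=
      ((M.integrable_logZl h N).sub (integrable_const _)).abs
    have h4 : ∫ ω, |Real.log (Zpin P S φ β h N ω) / N - M.Fr h| ∂(Measure.infinitePi (fun _ : ℕ => μ)) ≤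
        ∫ ω, (|Real.log (M.Zl h N ω) - M.ΨF h N| / N + |M.ΨF h N / N - M.Fr h|) ∂seqLaw M.μ := by
      have hi1 : Integrable (fun ω => |Real.log (M.Zl h N ω) / N - M.Fr h|) (seqLaw M.μ) :=
        (((M.integrable_logZl h N).div_const _).sub (integrable_const _)).abs
      have e : (fun ω => |Real.log (Zpin P S φ β h N ω) / N - M.Fr h|) =
          fun ω => |Real.log (M.Zl h N ω) / N - M.Fr h| := by
        funext ω; rw [hZ]
      rw [e]
      refine integral_mono hi1 ((hint.div_const _).add (integrable_const _)) (fun ω => ?_)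
      have h5 : Real.log (M.Zl h N ω) / N - M.Fr h =
          (Real.log (M.Zl h N ω) - M.ΨF h N) / N + (M.ΨF h N / N - M.Fr h) := by ring
      dsimp only
      rw [h5]
      refine (abs_add_le _ _).trans ?_
      rw [abs_div, Nat.abs_cast]
    refine h4.trans (le_of_eq ?_)
    rw [integral_add (hint.div_const _) (integrable_const _), integral_div]
    simp only [integral_const, probReal_univ, smul_eq_mul, one_mul]
    rfl
  · -- order at most one
    obtain ⟨A, δ₀, hδ₀, hA⟩ := hC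
    by_contra hcon
    push Not at hcon
    have h1 : Tendsto (fun δ : ℝ => A * δ ^ (q - 1)) (𝓝[>] 0) (𝓝 0) := by
      have h2 : Tendsto (fun δ : ℝ => δ ^ (q - 1)) (𝓝[>] 0) (𝓝 0) := by
        have h3 : ContinuousAt (fun δ : ℝ => δ ^ (q - 1)) 0 :=
          Real.continuousAt_rpow_const 0 (q - 1) (Or.inr (by linarith))
        have h4 := h3.tendsto
        rw [Real.zero_rpow (by linarith)] at h4
        exact h4.mono_left nhdsWithin_le_nhds
      have := h2.const_mul A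
      rwa [mul_zero] at this
    have h2 : ∀ᶠ δ in 𝓝[>] (0 : ℝ), c₁ ≤ A * δ ^ (q - 1) := by
      filter_upwards [Ioo_mem_nhdsGT hδ₀] with δ hδ
      have h3 := (hlow δ hδ.1).trans (hA δ hδ.1 hδ.2)
      have h4 : δ ^ q = δ ^ (q - 1) * δ := by
        rw [← Real.rpow_add_one hδ.1.ne']; congr 1; ring
      rw [h4, ← mul_assoc] at h3
      exact le_of_mul_le_mul_right h3 hδ.1
    have h3 := ge_of_tendsto h1 h2
    linarith
  · refine ⟨M.Φ, 1, one_pos, fun δ hδ hδ1 => (hupp δ hδ).trans ?_⟩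
    apply mul_le_mul_of_nonneg_left _ M.Φ_pos.le
    calc δ = δ ^ (1 : ℝ) := (Real.rpow_one δ).symm
      _ ≤ δ ^ q := Real.rpow_le_rpow_of_exponent_ge hδ hδ1.le hq1

end

end Pool.Agent.Results.MP_daa227_pr.FirstOrder
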